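import Pool.Agent.N963.KL.Stm

/-!
KL/GG (helper327): the cut-off function `1 / (1 + exp (-sinh w))`.
-/

set_option autoImplicit false

namespace Pool.Agent.N327.KL

open Complex Filter Topology MeasureTheory
open scoped ComplexConjugate
open Pool.Agent.N963.KL

namespace Gg

/-- the exponential in the cut-off -/
noncomputable def ee (w : ℂ) : ℂ := cexp (-(Complex.sinh w))

theorem gg_eq (w : ℂ) : gg w = 1 / (1 + ee w) := rfl

theorem sinh_re (w : ℂ) : (Complex.sinh w).re = Real.sinh w.re * Real.cos w.im := by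
  conv_lhs => rw [← Complex.re_add_im w]
  rw [Complex.sinh_add, Complex.sinh_mul_I, Complex.cosh_mul_I]
  simp [Complex.sinh_ofReal_re, Complex.cos_ofReal_re]

theorem sinh_im (w : ℂ) : (Complex.sinh w).im = Real.cosh w.re * Real.sin w.im := by
  conv_lhs => rw [← Complex.re_add_im w]
  rw [Complex.sinh_add, Complex.sinh_mul_I, Complex.cosh_mul_I]
  simp [Complex.cosh_ofReal_re, Complex.sin_ofReal_re]

theorem norm_ee (w : ℂ) : ‖ee w‖ = Real.exp (-(Real.sinh w.re * Real.cos w.im)) := by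
  unfold ee
  rw [Complex.norm_exp, Complex.neg_re, sinh_re]

theorem ee_re (w : ℂ) : (ee w).re = Real.exp (-(Real.sinh w.re * Real.cos w.im)) *
    Real.cos (Real.cosh w.re * Real.sin w.im) := by
  unfold ee
  rw [Complex.exp_re, Complex.neg_re, Complex.neg_im, sinh_re, sinh_im, Real.cos_neg]

theorem cos_ge {θ : ℝ} (h : |θ| ≤ 1) : 1 / 2 ≤ Real.cos θ := by
  have h1 := Real.one_sub_sq_div_two_le_cos (x := θ)
  have h2 : θ ^ 2 ≤ 1 := by
    rw [← sq_abs]
    nlinarith [abs_nonneg θ]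
  linarith

/-- no poles in the strip -/
theorem ne (w : ℂ) (hw : |w.im| < Real.pi / 2) : 1 + ee w ≠ 0 := by
  intro h
  have h1 : ee w = -1 := by linear_combination h
  have h2 := congrArg norm h1
  rw [norm_ee, norm_neg, norm_one, Real.exp_eq_one_iff, neg_eq_zero] at h2
  have hc : 0 < Real.cos w.im := Real.cos_pos_of_mem_Ioo ⟨by linarith [(abs_lt.1 hw).1],
    (abs_lt.1 hw).2⟩
  have h3 : Real.sinh w.re = 0 := by
    rcases mul_eq_zero.1 h2 with h3 | h3
    · exact h3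
    · exact absurd h3 hc.ne'
  have h4 : w.re = 0 := Real.sinh_eq_zero.1 h3
  have h5 := congrArg Complex.re h1
  rw [ee_re, h2, neg_zero, Real.exp_zero, one_mul, h4, Real.cosh_zero, one_mul] at h5
  have h6 : 1 / 2 ≤ Real.cos (Real.sin w.im) := cos_ge (Real.abs_sin_le_one _)
  rw [h5] at h6
  norm_num at h6

/-- the lower bound for the denominator -/
theorem low (w : ℂ) (hw : |w.im| ≤ 1) : 1 / 3 ≤ ‖1 + ee w‖ ∧ ‖ee w‖ / 3 ≤ ‖1 + ee w‖ := by
  set b := Real.cosh w.re * Real.sin w.im with hb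
  have hn := norm_ee w
  have hpos : 0 ≤ ‖ee w‖ := norm_nonneg _
  by_cases hcase : |b| ≤ Real.pi / 2
  · have hcb : 0 ≤ Real.cos b := Real.cos_nonneg_of_mem_Icc ⟨by linarith [(abs_le.1 hcase).1],
      (abs_le.1 hcase).2⟩
    have hre : 0 ≤ (ee w).re := by
      rw [ee_re]
      exact mul_nonneg (Real.exp_pos _).le hcb
    have hsq : ‖1 + ee w‖ ^ 2 = 1 + 2 * (ee w).re + ‖ee w‖ ^ 2 := by
      rw [Complex.sq_norm, Complex.sq_norm, Complex.normSq_apply, Complex.normSq_apply,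
        Complex.add_re, Complex.add_im, Complex.one_re, Complex.one_im]
      ring
    have h0 : 0 ≤ ‖1 + ee w‖ := norm_nonneg _
    constructor
    · have h1 : (1 : ℝ) ^ 2 ≤ ‖1 + ee w‖ ^ 2 := by
        rw [hsq]
        nlinarith [sq_nonneg ‖ee w‖]
      have h2 := (pow_le_pow_iff_left₀ zero_le_one h0 two_ne_zero).1 h1
      linarith
    · have h1 : ‖ee w‖ ^ 2 ≤ ‖1 + ee w‖ ^ 2 := by
        rw [hsq]
        linarith
      have h2 := (pow_le_pow_iff_left₀ hpos h0 two_ne_zero).1 h1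
      linarith
  · push Not at hcase
    have hch : 0 < Real.cosh w.re := Real.cosh_pos _
    have h1 : |b| ≤ Real.cosh w.re := by
      rw [hb, abs_mul, abs_of_pos hch]
      have := Real.abs_sin_le_one w.im
      nlinarith
    have hpi := Real.pi_gt_d2
    have h2 : 157 / 100 < Real.cosh w.re := by linarith
    have h3 : Real.cosh w.re ^ 2 = Real.sinh w.re ^ 2 + 1 := Real.cosh_sq w.re
    have h4 : (6 / 5 : ℝ) ≤ |Real.sinh w.re| := by
      have h5 : (6 / 5 : ℝ) ^ 2 ≤ |Real.sinh w.re| ^ 2 := by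
        rw [sq_abs]
        nlinarith
      exact (pow_le_pow_iff_left₀ (by norm_num) (abs_nonneg _) two_ne_zero).1 h5
    have hc := cos_ge hw
    have htri1 : 1 - ‖ee w‖ ≤ ‖1 + ee w‖ := by
      have := norm_sub_norm_le (1 : ℂ) (-(ee w))
      rw [norm_one, norm_neg, sub_neg_eq_add] at this
      exact this
    have htri2 : ‖ee w‖ - 1 ≤ ‖1 + ee w‖ := by
      have := norm_sub_norm_le (ee w) (-1 : ℂ)
      rw [norm_neg, norm_one, sub_neg_eq_add, add_comm (ee w)] at this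
      exact this
    rcases le_total 0 (Real.sinh w.re) with hs | hs
    · rw [abs_of_nonneg hs] at h4
      have h5 : 3 / 5 ≤ Real.sinh w.re * Real.cos w.im := by nlinarith
      have h6 : ‖ee w‖ * (8 / 5) ≤ 1 := by
        rw [hn, Real.exp_neg]
        have h7 := Real.add_one_le_exp (Real.sinh w.re * Real.cos w.im)
        have h8 := Real.exp_pos (Real.sinh w.re * Real.cos w.im)
        rw [inv_mul_le_iff₀ h8]
        linarith
      constructor <;> linarith
    · rw [abs_of_nonpos hs] at h4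
      have h5 : 3 / 5 ≤ -(Real.sinh w.re * Real.cos w.im) := by nlinarith
      have h6 : 8 / 5 ≤ ‖ee w‖ := by
        rw [hn]
        have h7 := Real.add_one_le_exp (-(Real.sinh w.re * Real.cos w.im))
        linarith
      constructor <;> linarith

theorem norm_gg (w : ℂ) (hw : |w.im| ≤ 1) : ‖gg w‖ ≤ 3 ∧ ‖gg w‖ * ‖ee w‖ ≤ 3 := by
  obtain ⟨h1, h2⟩ := low w hw
  have h0 : 0 < ‖1 + ee w‖ := by linarith
  rw [gg_eq, norm_div, norm_one]
  constructor
  · rw [div_le_iff₀ h0]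
    linarith
  · rw [div_mul_eq_mul_div, div_le_iff₀ h0]
    linarith

theorem one_sub (w : ℂ) (h : 1 + ee w ≠ 0) : 1 - gg w = gg w * ee w := by
  rw [gg_eq]
  field_simp
  ring

theorem pi_half : (1 : ℝ) < Real.pi / 2 := by linarith [Real.pi_gt_three]

theorem hasDeriv (w : ℂ) (h : 1 + ee w ≠ 0) :
    HasDerivAt gg (gg w * (1 - gg w) * Complex.cosh w) w := by
  have h1 : HasDerivAt (fun z => 1 + ee z) (ee w * -(Complex.cosh w)) w :=
    ((Complex.hasDerivAt_sinh w).neg.cexp).const_add 1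
  have h2 := h1.inv h
  have e : gg = fun z => (1 + ee z)⁻¹ := by
    funext z
    rw [gg_eq, one_div]
  rw [e]
  have e2 : (1 + ee w)⁻¹ * (1 - (1 + ee w)⁻¹) * Complex.cosh w =
      -(ee w * -(Complex.cosh w)) / (1 + ee w) ^ 2 := by
    field_simp
    ring
  show HasDerivAt (fun z => (1 + ee z)⁻¹)
    ((1 + ee w)⁻¹ * (1 - (1 + ee w)⁻¹) * Complex.cosh w) w
  rw [e2]
  exact h2

theorem norm_cosh (w : ℂ) : ‖Complex.cosh w‖ ≤ Real.exp |w.re| := by
  rw [Complex.cosh, norm_div]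
  have h1 := norm_add_le (cexp w) (cexp (-w))
  rw [Complex.norm_exp, Complex.norm_exp, Complex.neg_re] at h1
  have h2 := Real.exp_le_exp.2 (le_abs_self w.re)
  have h3 := Real.exp_le_exp.2 (neg_le_abs w.re)
  have h4 : ‖(2 : ℂ)‖ = 2 := by norm_num
  rw [h4, div_le_iff₀ two_pos]
  linarith

/-- the doubly exponential decay -/
theorem dec (M : ℝ) : ∃ C : ℝ, 1 ≤ C ∧ ∀ u : ℝ, 0 ≤ u →
    Real.exp u * Real.exp (-(Real.sinh u / 2)) ≤ C * Real.exp (-(M * u ^ 2)) := by
  set A : ℝ := 24 * (1 + |M|) with hA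
  have hM := abs_nonneg M
  have hA1 : 24 ≤ A := by rw [hA]; linarith
  refine ⟨Real.exp (A + |M| * A ^ 2), Real.one_le_exp (by positivity), fun u hu => ?_⟩
  rw [← Real.exp_add, ← Real.exp_add, Real.exp_le_exp]
  have h1 : u ^ 3 / 12 ≤ Real.sinh u := by
    rw [Real.sinh_eq]
    have h2 := Real.sum_le_exp_of_nonneg hu 4
    simp only [Finset.sum_range_succ, Finset.sum_range_zero, Nat.factorial] at h2
    have h3 : Real.exp (-u) ≤ 1 := Real.exp_le_one_iff.2 (by linarith)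
    norm_num at h2
    have h4 : 0 ≤ u ^ 2 := sq_nonneg u
    linarith
  have hMM := le_abs_self M
  have hu2 : 0 ≤ u ^ 2 := sq_nonneg u
  have h5 : M * u ^ 2 ≤ |M| * u ^ 2 := mul_le_mul_of_nonneg_right hMM hu2
  have h6 : u ^ 3 / 24 ≥ u + |M| * u ^ 2 - (A + |M| * A ^ 2) := by
    rcases le_total u A with h | h
    · have h7 : u ^ 2 ≤ A ^ 2 := pow_le_pow_left₀ hu h 2
      have h8 : |M| * u ^ 2 ≤ |M| * A ^ 2 := mul_le_mul_of_nonneg_left h7 hM
      have h9 : 0 ≤ u ^ 3 / 24 := by positivity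
      linarith
    · have h7 : (1 + |M|) * u ^ 2 ≤ u ^ 3 / 24 := by
        have h10 : A * u ^ 2 ≤ u * u ^ 2 := mul_le_mul_of_nonneg_right h hu2
        rw [hA] at h10
        nlinarith
      have h8 : u ≤ u ^ 2 := by nlinarith
      have h9 : 0 ≤ A + |M| * A ^ 2 := by positivity
      nlinarith
  linarith

/-- the bound for the exponential -/
theorem ee_bd (w : ℂ) (hw : |w.im| ≤ 1) :
    (0 ≤ w.re → ‖ee w‖ ≤ Real.exp (-(Real.sinh |w.re| / 2))) ∧
    (w.re ≤ 0 → 1 ≤ ‖ee w‖ * Real.exp (-(Real.sinh |w.re| / 2))) := by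
  have hc := cos_ge hw
  rw [norm_ee]
  constructor
  · intro h
    rw [abs_of_nonneg h, Real.exp_le_exp]
    have hs : 0 ≤ Real.sinh w.re := Real.sinh_nonneg_iff.2 h
    nlinarith
  · intro h
    rw [← Real.exp_add, abs_of_nonpos h, Real.sinh_neg]
    apply Real.one_le_exp
    have hs : Real.sinh w.re ≤ 0 := Real.sinh_nonpos_iff.2 h
    nlinarith

theorem gg_neg (w : ℂ) (hw : |w.im| ≤ 1) (h : w.re ≤ 0) :
    ‖gg w‖ ≤ 3 * Real.exp (-(Real.sinh |w.re| / 2)) := by
  have h1 := (norm_gg w hw).2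
  have h2 := (ee_bd w hw).2 h
  have h3 := Real.exp_pos (-(Real.sinh |w.re| / 2))
  have h0 := norm_nonneg (gg w)
  calc ‖gg w‖ = ‖gg w‖ * 1 := (mul_one _).symm
    _ ≤ ‖gg w‖ * (‖ee w‖ * Real.exp (-(Real.sinh |w.re| / 2))) :=
        mul_le_mul_of_nonneg_left h2 h0
    _ = (‖gg w‖ * ‖ee w‖) * Real.exp (-(Real.sinh |w.re| / 2)) := by ring
    _ ≤ 3 * Real.exp (-(Real.sinh |w.re| / 2)) := mul_le_mul_of_nonneg_right h1 h3.le

theorem one_sub_le (w : ℂ) (hw : |w.im| ≤ 1) : ‖1 - gg w‖ ≤ 3 := by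
  rw [one_sub w (ne w (lt_of_le_of_lt hw pi_half)), norm_mul]
  exact (norm_gg w hw).2

theorem one_sub_pos (w : ℂ) (hw : |w.im| ≤ 1) (h : 0 ≤ w.re) :
    ‖1 - gg w‖ ≤ 3 * Real.exp (-(Real.sinh |w.re| / 2)) := by
  rw [one_sub w (ne w (lt_of_le_of_lt hw pi_half)), norm_mul]
  exact mul_le_mul (norm_gg w hw).1 ((ee_bd w hw).1 h) (norm_nonneg _) (by norm_num)

theorem deriv_le (w : ℂ) (hw : |w.im| ≤ 1) :
    ‖deriv gg w‖ ≤ 9 * (Real.exp |w.re| * Real.exp (-(Real.sinh |w.re| / 2))) := by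
  rw [(hasDeriv w (ne w (lt_of_le_of_lt hw pi_half))).deriv, norm_mul, norm_mul]
  have h1 := (norm_gg w hw).1
  have h2 := one_sub_le w hw
  have h3 := Real.exp_pos (-(Real.sinh |w.re| / 2))
  have h4 := norm_cosh w
  have h5 : ‖gg w‖ * ‖1 - gg w‖ ≤ 9 * Real.exp (-(Real.sinh |w.re| / 2)) := by
    rcases le_total 0 w.re with h | h
    · calc ‖gg w‖ * ‖1 - gg w‖ ≤ 3 * (3 * Real.exp (-(Real.sinh |w.re| / 2))) :=
            mul_le_mul h1 (one_sub_pos w hw h) (norm_nonneg _) (by norm_num)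
        _ = _ := by ring
    · calc ‖gg w‖ * ‖1 - gg w‖ ≤ (3 * Real.exp (-(Real.sinh |w.re| / 2))) * 3 :=
            mul_le_mul (gg_neg w hw h) h2 (norm_nonneg _) (by positivity)
        _ = _ := by ring
  calc ‖gg w‖ * ‖1 - gg w‖ * ‖Complex.cosh w‖ ≤
      (9 * Real.exp (-(Real.sinh |w.re| / 2))) * Real.exp |w.re| :=
        mul_le_mul h5 h4 (norm_nonneg _) (by positivity)
    _ = _ := by ring

theorem gg_real (t : ℝ) : gg t = ((1 / (1 + Real.exp (-(Real.sinh t))) : ℝ) : ℂ) := by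
  unfold gg
  push_cast
  rfl

theorem main : S_GG := by
  refine ⟨fun w hw => (hasDeriv w (ne w hw)).differentiableAt, fun t => ⟨?_, ?_⟩, ?_, ?_⟩
  · have e : gg (-(t : ℂ)) = ((1 / (1 + Real.exp (Real.sinh t)) : ℝ) : ℂ) := by
      have h := gg_real (-t)
      rw [Real.sinh_neg, neg_neg] at h
      rw [← h]
      push_cast
      rfl
    rw [e, gg_real t, ← Complex.ofReal_add, ← Complex.ofReal_one]
    congr 1
    rw [Real.exp_neg]
    have h := Real.exp_pos (Real.sinh t)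
    field_simp
    ring
  · rw [gg_real t, Complex.conj_ofReal]
  · obtain ⟨C, hC, h⟩ := dec 0
    refine ⟨9 * C, by linarith, fun w hw => ⟨?_, ?_⟩, fun w hw h0 => ?_⟩
    · have := (norm_gg w hw).1
      linarith
    · have h1 := deriv_le w hw
      have h2 := h |w.re| (abs_nonneg _)
      rw [zero_mul, neg_zero, Real.exp_zero, mul_one] at h2
      linarith
    · have h1 := one_sub_pos w hw h0
      have h2 := h |w.re| (abs_nonneg _)
      rw [zero_mul, neg_zero, Real.exp_zero, mul_one, abs_of_nonneg h0] at h2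
      rw [abs_of_nonneg h0] at h1
      have h3 : Real.exp (-(Real.sinh w.re / 2)) ≤ C * Real.exp (-w.re) := by
        rw [Real.exp_neg w.re, ← div_eq_mul_inv, le_div_iff₀ (Real.exp_pos _)]
        linarith
      have h4 := mul_pos (by linarith : (0 : ℝ) < C) (Real.exp_pos (-w.re))
      calc ‖1 - gg w‖ ≤ 3 * Real.exp (-(Real.sinh w.re / 2)) := h1
        _ ≤ 3 * (C * Real.exp (-w.re)) := by linarith
        _ ≤ 9 * C * Real.exp (-w.re) := by nlinarith
  · intro M
    obtain ⟨C, hC, h⟩ := dec M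
    refine ⟨9 * C, by linarith, fun w hw h0 => ?_⟩
    have h2 := h |w.re| (abs_nonneg _)
    rw [sq_abs] at h2
    have hE := Real.exp_pos (-(Real.sinh |w.re| / 2))
    have h5 : (1 : ℝ) ≤ Real.exp |w.re| := Real.one_le_exp (abs_nonneg _)
    have h6 : Real.exp (-(Real.sinh |w.re| / 2)) ≤
        Real.exp |w.re| * Real.exp (-(Real.sinh |w.re| / 2)) := by nlinarith
    have h7 := mul_pos (by linarith : (0 : ℝ) < C) (Real.exp_pos (-(M * w.re ^ 2)))
    constructor
    · have h1 := gg_neg w hw h0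
      nlinarith
    · have h1 := deriv_le w hw
      linarith

end Gg

/-- Task GG of project KL. -/
theorem gg : S_GG := Gg.main

end Pool.Agent.N327.KL
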